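import Pool.Agent.H24.SCG2.Base3

/-!
Project SCG2, module CGA: the group `⟨a, b, c⟩` in the Fourier basis contains `1 ⊕ SL(2,F)`.
-/

namespace Pool.SCG

open Matrix

namespace CGA

variable {F : Type} [Field F]

/-- the symplectic matrix -/
def J2 (F : Type) [Field F] : M2 F := !![0, 1; -1, 0]

theorem blk_mul (e f : F) (A B : M2 F) : blk e A * blk f B = blk (e * f) (A * B) := by
  ext i j
  fin_cases i <;> fin_cases j <;>
    simp [blk, Matrix.mul_apply, Fin.sum_univ_three, Fin.sum_univ_two]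

theorem blk_one : blk (1 : F) (1 : M2 F) = 1 := by
  ext i j
  fin_cases i <;> fin_cases j <;> simp [blk]

theorem blk_smul (c e : F) (A : M2 F) : c • blk e A = blk (c * e) (c • A) := by
  ext i j
  fin_cases i <;> fin_cases j <;> simp [blk]

theorem blk_transpose (e : F) (A : M2 F) : (blk e A).transpose = blk e A.transpose := by
  ext i j
  fin_cases i <;> fin_cases j <;> simp [blk]

theorem blk_det (e : F) (A : M2 F) : (blk e A).det = e * A.det := by
  rw [Matrix.det_fin_three, Matrix.det_fin_two]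
  simp [blk]
  ring

/-- the inverse of a block matrix up to a scalar -/
theorem blk_adj (e : F) (A : M2 F) :
    blk e A * blk A.det (e • adjugate A) = (e * A.det) • (1 : M3 F) := by
  rw [blk_mul, Matrix.mul_smul, Matrix.mul_adjugate, smul_smul, ← blk_one, blk_smul, mul_one]

theorem adj_tr (A : M2 F) : (adjugate A).transpose * J2 F = J2 F * A := by
  rw [Matrix.adjugate_fin_two]
  ext i j
  fin_cases i <;> fin_cases j <;>
    simp [J2, Matrix.mul_apply, Fin.sum_univ_two]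

theorem J2_det : (J2 F).det = 1 := by
  simp [J2, Matrix.det_fin_two]

theorem J2_sq : J2 F * J2 F = -1 := by
  ext i j
  fin_cases i <;> fin_cases j <;>
    simp [J2, Matrix.mul_apply, Fin.sum_univ_two]

/-- membership -/
def Mem (H : Subgroup (MulAut (SL3 F))) (A : M2 F) : Prop :=
  A.det ≠ 0 ∧ ((∃ α ∈ H, ∃ e : F, e ≠ 0 ∧ GIs α false (blk e A)) ∨
    (∃ α ∈ H, ∃ e : F, e ≠ 0 ∧ GIs α true (blk e (J2 F * A))))

theorem Mem.smul {H : Subgroup (MulAut (SL3 F))} {A : M2 F} (h : Mem H A) {c : F} (hc : c ≠ 0) :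
    Mem H (c • A) := by
  obtain ⟨hd, h⟩ := h
  refine ⟨by rw [Matrix.det_smul]; exact mul_ne_zero (pow_ne_zero _ hc) hd, ?_⟩
  rcases h with ⟨α, hα, e, he, hG⟩ | ⟨α, hα, e, he, hG⟩
  · left
    refine ⟨α, hα, c * e, mul_ne_zero hc he, ?_⟩
    rw [← blk_smul]
    exact hG.smul hc
  · right
    refine ⟨α, hα, c * e, mul_ne_zero hc he, ?_⟩
    rw [Matrix.mul_smul, ← blk_smul]
    exact hG.smul hc

theorem Mem.one {H : Subgroup (MulAut (SL3 F))} : Mem H (1 : M2 F) := by
  refine ⟨by simp, Or.inl ⟨1, H.one_mem, 1, one_ne_zero, ?_⟩⟩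
  rw [blk_one]
  exact gis_one

theorem out_out {α β : MulAut (SL3 F)} {e f : F} {A B : M2 F} (hA : A.det ≠ 0) (he : e ≠ 0)
    (h1 : GIs α true (blk e (J2 F * A))) (h2 : GIs β true (blk f (J2 F * B))) :
    GIs (α * β) false (blk (-(A.det * f) / e) (A * B)) := by
  have hd : (J2 F * A).det = A.det := by rw [Matrix.det_mul, J2_det, one_mul]
  have hc : e * (J2 F * A).det ≠ 0 := by rw [hd]; exact mul_ne_zero he hA
  have h3 := h1.mul_outer' h2 (blk_adj e (J2 F * A)) hc
  rw [blk_transpose, blk_mul, Matrix.transpose_smul, Matrix.smul_mul, ← Matrix.mul_assoc,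
    adj_tr, ← Matrix.mul_assoc (J2 F) (J2 F), J2_sq, hd] at h3
  have h4 := h3.smul (c := -e⁻¹) (neg_ne_zero.2 (inv_ne_zero he))
  rw [blk_smul] at h4
  have e1 : -e⁻¹ * (A.det * f) = -(A.det * f) / e := by
    field_simp
  have e2 : -e⁻¹ • e • (-1 * A * B) = A * B := by
    rw [smul_smul, neg_mul, inv_mul_cancel₀ he, neg_smul, one_smul, neg_mul, one_mul, neg_mul,
      neg_neg]
  rw [e1, e2] at h4
  simpa using h4

theorem in_out {α β : MulAut (SL3 F)} {e f : F} {A B : M2 F} (hA : A.det ≠ 0) (he : e ≠ 0)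
    (h1 : GIs α false (blk e A)) (h2 : GIs β true (blk f (J2 F * B))) :
    GIs (α * β) true (blk ((A.det * f) / e) (J2 F * (A * B))) := by
  have hc : e * A.det ≠ 0 := mul_ne_zero he hA
  have h3 := h1.mul_outer' h2 (blk_adj e A) hc
  rw [blk_transpose, blk_mul, Matrix.transpose_smul, Matrix.smul_mul, ← Matrix.mul_assoc,
    adj_tr, Matrix.mul_assoc (J2 F)] at h3
  have h4 := h3.smul (c := e⁻¹) (inv_ne_zero he)
  rw [blk_smul] at h4
  have e1 : e⁻¹ * (A.det * f) = (A.det * f) / e := by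
    field_simp
  have e2 : e⁻¹ • e • (J2 F * (A * B)) = J2 F * (A * B) := by
    rw [smul_smul, inv_mul_cancel₀ he, one_smul]
  rw [e1, e2] at h4
  simpa using h4

theorem Mem.mul {H : Subgroup (MulAut (SL3 F))} {A B : M2 F} (hA : Mem H A) (hB : Mem H B) :
    Mem H (A * B) := by
  obtain ⟨dA, hA⟩ := hA
  obtain ⟨dB, hB⟩ := hB
  refine ⟨by rw [Matrix.det_mul]; exact mul_ne_zero dA dB, ?_⟩
  rcases hA with ⟨α, hα, e, he, h1⟩ | ⟨α, hα, e, he, h1⟩ <;>
    rcases hB with ⟨β, hβ, f, hf, h2⟩ | ⟨β, hβ, f, hf, h2⟩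
  · left
    refine ⟨α * β, H.mul_mem hα hβ, e * f, mul_ne_zero he hf, ?_⟩
    rw [← blk_mul]
    exact h1.mul_inner h2
  · right
    exact ⟨α * β, H.mul_mem hα hβ, _, div_ne_zero (mul_ne_zero dA hf) he, in_out dA he h1 h2⟩
  · right
    refine ⟨α * β, H.mul_mem hα hβ, e * f, mul_ne_zero he hf, ?_⟩
    rw [← Matrix.mul_assoc, ← blk_mul]
    exact h1.mul_inner h2
  · left
    exact ⟨α * β, H.mul_mem hα hβ, _, div_ne_zero (neg_ne_zero.2 (mul_ne_zero dA hf)) he,
      out_out dA he h1 h2⟩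

/-- the group of two by two matrices -/
def X [Finite F] (H : Subgroup (MulAut (SL3 F))) : Subgroup (GL (Fin 2) F) where
  carrier := {g | Mem H (g : M2 F)}
  one_mem' := by
    show Mem H ((1 : GL (Fin 2) F) : M2 F)
    rw [Units.val_one]
    exact Mem.one
  mul_mem' := by
    intro x y hx hy
    show Mem H ((x * y : GL (Fin 2) F) : M2 F)
    rw [Units.val_mul]
    exact Mem.mul hx hy
  inv_mem' := by
    intro x hx
    have hp : ∀ n : ℕ, Mem H ((x ^ n : GL (Fin 2) F) : M2 F) := by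
      intro n
      induction n with
      | zero => rw [pow_zero, Units.val_one]; exact Mem.one
      | succ n ih => rw [pow_succ, Units.val_mul]; exact Mem.mul ih hx
    have h1 : x⁻¹ = x ^ (orderOf x - 1) := by
      rw [inv_eq_iff_mul_eq_one, ← pow_succ', Nat.sub_add_cancel (orderOf_pos x),
        pow_orderOf_eq_one]
    show Mem H ((x⁻¹ : GL (Fin 2) F) : M2 F)
    rw [h1]
    exact hp _

theorem mem_X [Finite F] {H : Subgroup (MulAut (SL3 F))} {g : GL (Fin 2) F} :
    g ∈ X H ↔ Mem H (g : M2 F) := Iff.rfl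

theorem lift_X [Finite F] {H : Subgroup (MulAut (SL3 F))} {A : M2 F} (h : Mem H A) :
    ∃ g ∈ X H, (g : M2 F) = A :=
  ⟨Matrix.GeneralLinearGroup.mkOfDetNeZero A h.1, h, rfl⟩

theorem uni_mul (u v : F) : (!![1, u; 0, 1] : M2 F) * !![1, v; 0, 1] = !![1, u + v; 0, 1] := by
  ext i j
  fin_cases i <;> fin_cases j <;> simp [Matrix.mul_apply, Fin.sum_univ_two, add_comm]

theorem uni_pow (u : F) (n : ℕ) : (!![1, u; 0, 1] : M2 F) ^ n = !![1, n * u; 0, 1] := by
  induction n with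
  | zero =>
    ext i j
    fin_cases i <;> fin_cases j <;> simp
  | succ n ih =>
    rw [pow_succ, ih, uni_mul]
    congr 1
    push_cast
    ring_nf

/-- powers -/
theorem blk_pow {α : MulAut (SL3 F)} {e : F} {A : M2 F} (h : GIs α false (blk e A)) (n : ℕ) :
    GIs (α ^ n) false (blk (e ^ n) (A ^ n)) := by
  induction n with
  | zero =>
    rw [pow_zero, pow_zero, pow_zero, blk_one]
    exact gis_one
  | succ n ih =>
    rw [pow_succ, pow_succ, pow_succ, ← blk_mul]
    exact ih.mul_inner h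

/-- unipotent elements are exact -/
theorem uni_inA [Finite F] {H : Subgroup (MulAut (SL3 F))} {u : F}
    (h : Mem H (!![1, u; 0, 1] : M2 F)) : InA H (blk 1 !![1, -2 * u; 0, 1]) := by
  obtain ⟨hd, h⟩ := h
  have hdet : (!![1, u; 0, 1] : M2 F).det = 1 := by simp [Matrix.det_fin_two]
  have h2 : ∃ α ∈ H, ∃ e : F, e ≠ 0 ∧ GIs α false (blk e (!![1, 2 * u; 0, 1] : M2 F)) := by
    rcases h with ⟨α, hα, e, he, hG⟩ | ⟨α, hα, e, he, hG⟩
    · refine ⟨α * α, H.mul_mem hα hα, e * e, mul_ne_zero he he, ?_⟩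
      have h3 := hG.mul_inner hG
      rw [blk_mul, uni_mul] at h3
      rwa [two_mul]
    · have h3 := out_out hd he hG hG
      rw [uni_mul, hdet] at h3
      refine ⟨α * α, H.mul_mem hα hα, -(1 * e) / e,
        div_ne_zero (neg_ne_zero.2 (mul_ne_zero one_ne_zero he)) he, ?_⟩
      rw [two_mul]
      exact h3
  obtain ⟨α, hα, e, he, hG⟩ := h2
  have := Fintype.ofFinite F
  have h3 := blk_pow hG (Fintype.card F - 1)
  rw [FiniteField.pow_card_sub_one_eq_one e he, uni_pow] at h3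
  have h4 : ((Fintype.card F - 1 : ℕ) : F) * (2 * u) = -2 * u := by
    rw [Nat.cast_sub Fintype.card_pos, Nat.cast_one, FiniteField.cast_card_eq_zero]
    ring
  rw [h4] at h3
  refine h3.inA (H.pow_mem hα _) ?_
  rw [blk_det]
  simp [Matrix.det_fin_two]

/-- elementary matrices generate -/
theorem gen {H : Subgroup (MulAut (SL3 F))} (hU : ∀ u : F, InA H (blk 1 !![1, u; 0, 1]))
    (hL : ∀ u : F, InA H (blk 1 !![1, 0; u, 1])) (h : M2 F) (hd : h.det = 1) :
    InA H (blk 1 h) := by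
  have key : ∀ h : M2 F, h.det = 1 → h 1 0 ≠ 0 → InA H (blk 1 h) := by
    intro h hd h10
    have h1 := ((hU ((h 0 0 - 1) / h 1 0)).mul (hL (h 1 0))).mul (hU ((h 1 1 - 1) / h 1 0))
    rw [blk_mul, blk_mul, one_mul, one_mul] at h1
    have e : (!![1, (h 0 0 - 1) / h 1 0; 0, 1] : M2 F) * !![1, 0; h 1 0, 1] *
        !![1, (h 1 1 - 1) / h 1 0; 0, 1] = h := by
      rw [Matrix.det_fin_two] at hd
      ext i j
      fin_cases i <;> fin_cases j <;> simp [Matrix.mul_apply, Fin.sum_univ_two]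
      · field_simp
        ring
      · field_simp
        linear_combination hd
      · field_simp
        ring
    rwa [e] at h1
  by_cases h10 : h 1 0 = 0
  · have h00 : h 0 0 ≠ 0 := by
      intro h0
      rw [Matrix.det_fin_two, h0, h10] at hd
      simp at hd
    have h1 := key (!![1, 0; 1, 1] * h) (by
      rw [Matrix.det_mul, hd]
      simp [Matrix.det_fin_two]) (by
      simpa [Matrix.mul_apply, Fin.sum_univ_two, h10] using h00)
    have h2 := (hL (-1)).mul h1
    rw [blk_mul, one_mul, ← Matrix.mul_assoc] at h2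
    have e : (!![1, 0; -1, 1] : M2 F) * !![1, 0; 1, 1] = 1 := by
      ext i j
      fin_cases i <;> fin_cases j <;> simp [Matrix.mul_apply, Fin.sum_univ_two]
    rwa [e, one_mul] at h2
  · exact key h hd h10

end CGA

open CGA in
theorem cga_thm (hBIG : BIGStmt) (hHUA : HUAStmt) (hSQO : SQOStmt) (hPAR : PARStmt) :
    CGAStmt := by
  intro F _ _ hO τ w hw a b c ha hb hc h hd
  obtain ⟨p, hp, hchar, hp6, h2, h3, -, -, -⟩ := hPAR F hO
  have : Fact p.Prime := ⟨hp⟩
  have := hchar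
  obtain ⟨hw0, t0, t1, t2, -, t4, -, -, tgen⟩ := hw
  set H := Subgroup.closure ({a, b, c} : Set (MulAut (SL3 F))) with hH
  have haH : a ∈ H := Subgroup.subset_closure (by simp)
  have hbH : b ∈ H := Subgroup.subset_closure (by simp)
  have hcH : c ∈ H := Subgroup.subset_closure (by simp)
  have w0 : w ≠ 0 := by
    rintro rfl
    simp at hw0
  have w3 : w ^ 3 = 1 := by linear_combination (w - 1) * hw0
  -- the generators
  have mc : Mem H (!![0, 1; 1, 0] : M2 F) :=
    ⟨by simp [Matrix.det_fin_two], Or.inl ⟨c, hcH, 1, one_ne_zero, hc⟩⟩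
  have mb : Mem H (!![0, -w ^ 2; w, 0] : M2 F) := by
    refine ⟨?_, Or.inr ⟨b, hbH, 1, one_ne_zero, ?_⟩⟩
    · rw [Matrix.det_fin_two]
      simp [w0]
    · have e : blk 1 (J2 F * !![0, -w ^ 2; w, 0]) = dg 1 w (w ^ 2) := by
        ext i j
        fin_cases i <;> fin_cases j <;>
          simp [blk, dg, J2, Matrix.mul_apply, Fin.sum_univ_two]
      rw [e]
      exact hb
  have ma : Mem H (!![-(τ ^ 2 + τ + 1), -(τ ^ 2 - 1); τ ^ 2 - 1, τ ^ 2 + τ + 1] : M2 F) := by
    have he : -(τ * (τ + 2)) ≠ 0 := neg_ne_zero.2 (mul_ne_zero t0 t2)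
    have e : blk (-(τ * (τ + 2)))
        (J2 F * !![-(τ ^ 2 + τ + 1), -(τ ^ 2 - 1); τ ^ 2 - 1, τ ^ 2 + τ + 1]) =
        blk (-(τ * (τ + 2))) !![τ ^ 2 - 1, τ ^ 2 + τ + 1; τ ^ 2 + τ + 1, τ ^ 2 - 1] := by
      ext i j
      fin_cases i <;> fin_cases j <;>
        simp [blk, J2, Matrix.mul_apply, Fin.sum_univ_two]
    have hG : GIs a true (blk (-(τ * (τ + 2)))
        (J2 F * !![-(τ ^ 2 + τ + 1), -(τ ^ 2 - 1); τ ^ 2 - 1, τ ^ 2 + τ + 1])) := by
      rw [e]; exact ha
    refine ⟨?_, Or.inr ⟨a, haH, _, he, hG⟩⟩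
    intro h0
    have h1 := hG.det_ne
    rw [blk_det, Matrix.det_mul, h0, mul_zero, mul_zero] at h1
    exact h1 rfl
  have mh : Mem H (!![-w, 0; 0, 1] : M2 F) := by
    have h1 := (mb.mul mc).smul (c := w ^ 2) (pow_ne_zero _ w0)
    have e : w ^ 2 • ((!![0, -w ^ 2; w, 0] : M2 F) * !![0, 1; 1, 0]) = !![-w, 0; 0, 1] := by
      have w4 : w ^ 2 * w ^ 2 = w := by linear_combination w * w3
      have w31 : w ^ 2 * w = 1 := by linear_combination w3
      ext i j
      fin_cases i <;> fin_cases j <;>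
        simp [Matrix.mul_apply, Fin.sum_univ_two, w4, w31]
    rwa [e] at h1
  obtain ⟨gh, hgh, egh⟩ := lift_X mh
  obtain ⟨gc, hgc, egc⟩ := lift_X mc
  obtain ⟨ga, hga, ega⟩ := lift_X ma
  obtain ⟨U, hU0, hU1, hU2, hU3⟩ := hBIG p F hp6 (X H) gh gc ga w 1 hgh hgc hga hw0 egh egc
    (by rw [ega]; exact neg_ne_zero.2 t4) (by rw [ega]; exact sub_ne_zero.2 t1)
  obtain ⟨F0, u0, hu0, hUF, hu1⟩ := hHUA F h2 U 1 one_ne_zero hU0 (by
    intro u hu hu'
    have h4 := hU2 gc hgc u hu (by rw [egc]; simpa using hu')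
    rw [egc] at h4
    simpa using h4)
  rw [div_one] at hu1
  have hu2 : u0 ∈ F0 := hSQO F h2 hO.2 F0 u0 hu1
  have hUF' : ∀ x : F, x ∈ U ↔ x ∈ F0 := by
    intro x
    rw [hUF x]
    constructor
    · intro hx
      have := F0.mul_mem hx hu2
      rwa [div_mul_cancel₀ _ hu0] at this
    · intro hx
      exact F0.div_mem hx hu2
  have hP : τ ^ 2 - 1 ≠ 0 := sub_ne_zero.2 t1
  have hr : -(τ ^ 2 + τ + 1) / (τ ^ 2 - 1) ∈ F0 := by
    rw [← hUF']
    have h4 := hU3 ga hga (by rw [ega]; simpa using hP)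
    rw [ega] at h4
    simpa using h4
  have hτ : τ ∈ F0 := by
    set r := -(-(τ ^ 2 + τ + 1) / (τ ^ 2 - 1)) with hrdef
    have hr' : r ∈ F0 := F0.neg_mem hr
    have e1 : r * (τ ^ 2 - 1) = τ ^ 2 + τ + 1 := by
      rw [hrdef]
      field_simp
    have e2 : (2 * (1 - r) * τ + 1) ^ 2 = 1 - 4 * (1 - r ^ 2) := by
      linear_combination (-4 * (1 - r)) * e1
    have h1F : (1 : F) ∈ F0 := F0.one_mem
    have h2F : (2 : F) ∈ F0 := by
      have := F0.add_mem h1F h1F
      rwa [one_add_one_eq_two] at this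
    have h4F : (4 : F) ∈ F0 := by
      have := F0.add_mem h2F h2F
      rwa [two_add_two_eq_four] at this
    have h5 : 2 * (1 - r) * τ + 1 ∈ F0 := by
      apply hSQO F h2 hO.2 F0
      rw [e2]
      exact F0.sub_mem h1F (F0.mul_mem h4F (F0.sub_mem h1F (F0.pow_mem hr' 2)))
    have hr1 : 1 - r ≠ 0 := by
      intro h0
      have hr1 : r = 1 := by linear_combination -h0
      rw [hr1] at e1
      exact t2 (by linear_combination -e1)
    have h6 : 2 * (1 - r) ≠ 0 := mul_ne_zero h2 hr1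
    have h7 : τ = ((2 * (1 - r) * τ + 1) - 1) / (2 * (1 - r)) := by
      field_simp
      ring
    rw [h7]
    exact F0.div_mem (F0.sub_mem h5 h1F) (F0.mul_mem h2F (F0.sub_mem h1F hr'))
  have hF0 := tgen F0 hτ
  have hall : ∀ u : F, Mem H (!![1, u; 0, 1] : M2 F) := by
    intro u
    have hu : u ∈ U := by rw [hUF', hF0]; trivial
    obtain ⟨g, hg, k, hk, hgk⟩ := hU1 u hu
    have h8 := (show Mem H (g : M2 F) from hg).smul (c := k⁻¹) (inv_ne_zero hk)
    rwa [hgk, smul_smul, inv_mul_cancel₀ hk, one_smul] at h8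
  have hUp : ∀ u : F, InA H (blk 1 !![1, u; 0, 1]) := by
    intro u
    have h8 := uni_inA (hall (-(u / 2)))
    have e : -2 * -(u / 2) = u := by field_simp
    rwa [e] at h8
  have hLo : ∀ u : F, InA H (blk 1 !![1, 0; u, 1]) := by
    intro u
    have e1 : blk (1 : F) !![0, 1; 1, 0] * blk 1 !![0, 1; 1, 0] = (1 : F) • (1 : M3 F) := by
      rw [one_smul, blk_mul, ← blk_one, one_mul]
      congr 1
      ext i j
      fin_cases i <;> fin_cases j <;> simp [Matrix.mul_apply, Fin.sum_univ_two]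
    have h8 := (hUp u).conj hcH hc e1 one_ne_zero
    rw [inv_one, one_smul, blk_mul, blk_mul, one_mul, one_mul] at h8
    have e2 : (!![0, 1; 1, 0] : M2 F) * !![1, u; 0, 1] * !![0, 1; 1, 0] = !![1, 0; u, 1] := by
      ext i j
      fin_cases i <;> fin_cases j <;> simp [Matrix.mul_apply, Fin.sum_univ_two]
    rwa [e2] at h8
  exact gen hUp hLo h hd

end Pool.SCG
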