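import Pool.Agent.H24.SCG2.Stmts4
import Pool.Agent.H24.SCG2.Base3

/-!
Project SCG2, module R3I: third intersection condition for `q = 3`.
-/

namespace Pool.SCG

open Matrix

namespace R3I

variable {F : Type} [Field F]

/-- an automorphism preserving the flag `(p, l)` -/
def Fl (p l : Fin 3 → F) (x : MulAut (SL3 F)) : Prop :=
  (∃ M : M3 F, GIs x false M ∧ (∃ k : F, k ≠ 0 ∧ M *ᵥ p = k • p) ∧
      ∃ k : F, k ≠ 0 ∧ l ᵥ* M = k • l) ∨
  (∃ M : M3 F, GIs x true M ∧ (∃ k : F, k ≠ 0 ∧ M *ᵥ p = k • l) ∧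
      ∃ k : F, k ≠ 0 ∧ p ᵥ* M = k • l)

theorem exists_inv {A : M3 F} (h : A.det ≠ 0) : ∃ B : M3 F, A * B = 1 ∧ B * A = 1 :=
  ⟨A⁻¹, Matrix.mul_nonsing_inv A (isUnit_iff_ne_zero.2 h),
    Matrix.nonsing_inv_mul A (isUnit_iff_ne_zero.2 h)⟩

theorem mv {A B : M3 F} {u v : Fin 3 → F} {k : F} (hBA : B * A = 1) (hk : k ≠ 0)
    (h : A *ᵥ u = k • v) : B *ᵥ v = k⁻¹ • u := by
  have h1 : B *ᵥ (A *ᵥ u) = u := by rw [Matrix.mulVec_mulVec, hBA, Matrix.one_mulVec]
  rw [h, Matrix.mulVec_smul] at h1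
  rw [← h1, smul_smul, inv_mul_cancel₀ hk, one_smul]

theorem vm {A B : M3 F} {u v : Fin 3 → F} {k : F} (hAB : A * B = 1) (hk : k ≠ 0)
    (h : u ᵥ* A = k • v) : v ᵥ* B = k⁻¹ • u := by
  have h1 : (u ᵥ* A) ᵥ* B = u := by rw [Matrix.vecMul_vecMul, hAB, Matrix.vecMul_one]
  rw [h, Matrix.smul_vecMul] at h1
  rw [← h1, smul_smul, inv_mul_cancel₀ hk, one_smul]

theorem Fl.one {p l : Fin 3 → F} : Fl p l 1 :=
  Or.inl ⟨1, gis_one, ⟨1, one_ne_zero, by rw [Matrix.one_mulVec, one_smul]⟩,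
    ⟨1, one_ne_zero, by rw [Matrix.vecMul_one, one_smul]⟩⟩

theorem Fl.inv {p l : Fin 3 → F} {x : MulAut (SL3 F)} (h : Fl p l x) : Fl p l x⁻¹ := by
  rcases h with ⟨M, hM, ⟨k, hk, h1⟩, ⟨k', hk', h2⟩⟩ | ⟨M, hM, ⟨k, hk, h1⟩, ⟨k', hk', h2⟩⟩
  · obtain ⟨B, hB, hB'⟩ := exists_inv hM.det_ne
    have hBd : B.det ≠ 0 := by
      intro h0
      have := congrArg Matrix.det hB
      rw [Matrix.det_mul, h0, mul_zero, Matrix.det_one] at this
      exact zero_ne_one this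
    obtain ⟨y, hy⟩ := gis_exists false B hBd
    have h3 := hM.mul_inner hy
    rw [hB] at h3
    have h4 : x * y = 1 := h3.ext gis_one 1 (by rw [one_smul])
    have h5 : y = x⁻¹ := eq_inv_of_mul_eq_one_right h4
    rw [h5] at hy
    exact Or.inl ⟨B, hy, ⟨_, inv_ne_zero hk, mv hB' hk h1⟩, ⟨_, inv_ne_zero hk', vm hB hk' h2⟩⟩
  · obtain ⟨B, hB, hB'⟩ := exists_inv hM.det_ne
    obtain ⟨y, hy⟩ := gis_exists true M.transpose (by
      rw [Matrix.det_transpose]; exact hM.det_ne)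
    have h3 := hM.mul_outer hy hB
    rw [← Matrix.transpose_mul, hB, Matrix.transpose_one] at h3
    have h4 : x * y = 1 := h3.ext gis_one 1 (by rw [one_smul])
    have h5 : y = x⁻¹ := eq_inv_of_mul_eq_one_right h4
    rw [h5] at hy
    refine Or.inr ⟨M.transpose, hy, ⟨k', hk', ?_⟩, ⟨k, hk, ?_⟩⟩
    · rw [Matrix.mulVec_transpose, h2]
    · rw [Matrix.vecMul_transpose, h1]

theorem Fl.mul {p l : Fin 3 → F} {x y : MulAut (SL3 F)} (hx : Fl p l x) (hy : Fl p l y) :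
    Fl p l (x * y) := by
  rcases hx with ⟨M, hM, ⟨k, hk, h1⟩, ⟨k', hk', h2⟩⟩ | ⟨M, hM, ⟨k, hk, h1⟩, ⟨k', hk', h2⟩⟩ <;>
    rcases hy with ⟨N, hN, ⟨j, hj, g1⟩, ⟨j', hj', g2⟩⟩ | ⟨N, hN, ⟨j, hj, g1⟩, ⟨j', hj', g2⟩⟩
  · refine Or.inl ⟨M * N, hM.mul_inner hN, ⟨j * k, mul_ne_zero hj hk, ?_⟩,
      ⟨k' * j', mul_ne_zero hk' hj', ?_⟩⟩
    · rw [← Matrix.mulVec_mulVec, g1, Matrix.mulVec_smul, h1, smul_smul]
    · rw [← Matrix.vecMul_vecMul, h2, Matrix.smul_vecMul, g2, smul_smul]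
  · obtain ⟨B, hB, hB'⟩ := exists_inv hM.det_ne
    refine Or.inr ⟨_, hM.mul_outer hN hB, ⟨j * k'⁻¹, mul_ne_zero hj (inv_ne_zero hk'), ?_⟩,
      ⟨k⁻¹ * j', mul_ne_zero (inv_ne_zero hk) hj', ?_⟩⟩
    · rw [← Matrix.mulVec_mulVec, g1, Matrix.mulVec_smul, Matrix.mulVec_transpose, vm hB hk' h2,
        smul_smul]
    · rw [← Matrix.vecMul_vecMul, Matrix.vecMul_transpose, mv hB' hk h1, Matrix.smul_vecMul, g2,
        smul_smul]
  · refine Or.inr ⟨M * N, hM.mul_inner hN, ⟨j * k, mul_ne_zero hj hk, ?_⟩,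
      ⟨k' * j', mul_ne_zero hk' hj', ?_⟩⟩
    · rw [← Matrix.mulVec_mulVec, g1, Matrix.mulVec_smul, h1, smul_smul]
    · rw [← Matrix.vecMul_vecMul, h2, Matrix.smul_vecMul, g2, smul_smul]
  · obtain ⟨B, hB, hB'⟩ := exists_inv hM.det_ne
    refine Or.inl ⟨_, hM.mul_outer hN hB, ⟨j * k'⁻¹, mul_ne_zero hj (inv_ne_zero hk'), ?_⟩,
      ⟨k⁻¹ * j', mul_ne_zero (inv_ne_zero hk) hj', ?_⟩⟩
    · rw [← Matrix.mulVec_mulVec, g1, Matrix.mulVec_smul, Matrix.mulVec_transpose, vm hB hk' h2,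
        smul_smul]
    · rw [← Matrix.vecMul_vecMul, Matrix.vecMul_transpose, mv hB' hk h1, Matrix.smul_vecMul, g2,
        smul_smul]

theorem Fl.of_closure {p l : Fin 3 → F} {S : Set (MulAut (SL3 F))} (hS : ∀ x ∈ S, Fl p l x)
    {x : MulAut (SL3 F)} (hx : x ∈ Subgroup.closure S) : Fl p l x := by
  induction hx using Subgroup.closure_induction with
  | mem x hx => exact hS x hx
  | one => exact Fl.one
  | mul x y _ _ hx hy => exact hx.mul hy
  | inv x _ hx => exact hx.inv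

theorem tern [Finite F] (h : Nat.card F = 3) (x : F) : x = 0 ∨ x = 1 ∨ x = -1 := by
  have := Fintype.ofFinite F
  have h3 : x ^ 3 = x := by
    have := FiniteField.pow_card x
    rwa [← Nat.card_eq_fintype_card, h] at this
  have h4 : x * ((x - 1) * (x + 1)) = 0 := by linear_combination h3
  rcases mul_eq_zero.1 h4 with h | h
  · exact Or.inl h
  · rcases mul_eq_zero.1 h with h | h
    · exact Or.inr (Or.inl (sub_eq_zero.1 h))
    · exact Or.inr (Or.inr (eq_neg_of_add_eq_zero_left h))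

theorem words (h3 : (3 : F) = 0) {b c : MulAut (SL3 F)} (hb : GIs b false (dg 1 (-1) (-1)))
    (hc : GIs c false !![-1, 0, 0; -1, 1, 0; -1, -1, -1]) (H : Subgroup (MulAut (SL3 F)))
    (hbH : b ∈ H) (hcH : c ∈ H) :
    (∀ p : F, p = 0 ∨ p = 1 ∨ p = -1 → ∃ x ∈ H, GIs x false !![1, 0, 0; p, 1, 0; p, 0, 1]) ∧
    (∀ m y z : F, m = 1 ∨ m = -1 → y = 1 ∨ y = -1 → z = 1 ∨ z = -1 →
      ∃ x ∈ H, GIs x false !![m, 0, 0; 0, y, 0; 0, y - z, z]) := by
  have e2 : (2 : F) = -1 := by linear_combination h3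
  have e11 : (1 : F) + 1 = -1 := by linear_combination h3
  have e11' : (-1 : F) + -1 = 1 := by linear_combination -h3
  have e11'' : (-1 : F) - 1 = 1 := by linear_combination -h3
  have e11n : (1 : F) - -1 = -1 := by linear_combination h3
  have hR := hb.mul_inner hc
  have eR : (dg 1 (-1) (-1) : M3 F) * !![-1, 0, 0; -1, 1, 0; -1, -1, -1] =
      !![-1, 0, 0; 1, -1, 0; 1, 1, 1] := by
    ext i j
    fin_cases i <;> fin_cases j <;> simp [dg, Matrix.mul_apply, Fin.sum_univ_three]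
  rw [eR] at hR
  have hRH : b * c ∈ H := H.mul_mem hbH hcH
  have hR2 := hR.mul_inner hR
  have eR2 : (!![-1, 0, 0; 1, -1, 0; 1, 1, 1] : M3 F) * !![-1, 0, 0; 1, -1, 0; 1, 1, 1] =
      !![1, 0, 0; 1, 1, 0; 1, 0, 1] := by
    ext i j
    fin_cases i <;> fin_cases j <;>
      simp [Matrix.mul_apply, Fin.sum_univ_three, e11, e11', e11'']
  rw [eR2] at hR2
  have hR2H : b * c * (b * c) ∈ H := H.mul_mem hRH hRH
  have hR4 := hR2.mul_inner hR2
  have eR4 : (!![1, 0, 0; 1, 1, 0; 1, 0, 1] : M3 F) * !![1, 0, 0; 1, 1, 0; 1, 0, 1] =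
      !![1, 0, 0; -1, 1, 0; -1, 0, 1] := by
    ext i j
    fin_cases i <;> fin_cases j <;>
      simp [Matrix.mul_apply, Fin.sum_univ_three, e11, e11', e11'']
  rw [eR4] at hR4
  have hR4H := H.mul_mem hR2H hR2H
  have hR3 := hR2.mul_inner hR
  have eR3 : (!![1, 0, 0; 1, 1, 0; 1, 0, 1] : M3 F) * !![-1, 0, 0; 1, -1, 0; 1, 1, 1] =
      !![-1, 0, 0; 0, -1, 0; 0, 1, 1] := by
    ext i j
    fin_cases i <;> fin_cases j <;>
      simp [Matrix.mul_apply, Fin.sum_univ_three]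
  rw [eR3] at hR3
  have hR3H := H.mul_mem hR2H hRH
  have hbR := hb.mul_inner hR3
  have ebR : (dg 1 (-1) (-1) : M3 F) * !![-1, 0, 0; 0, -1, 0; 0, 1, 1] =
      !![-1, 0, 0; 0, 1, 0; 0, -1, -1] := by
    ext i j
    fin_cases i <;> fin_cases j <;> simp [dg, Matrix.mul_apply, Fin.sum_univ_three]
  rw [ebR] at hbR
  have hbRH := H.mul_mem hbH hR3H
  refine ⟨?_, ?_⟩
  · rintro p (rfl | rfl | rfl)
    · refine ⟨1, H.one_mem, ?_⟩
      have e : (!![1, 0, 0; 0, 1, 0; 0, 0, 1] : M3 F) = 1 := by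
        ext i j
        fin_cases i <;> fin_cases j <;> simp
      rw [e]
      exact gis_one
    · exact ⟨_, hR2H, hR2⟩
    · exact ⟨_, hR4H, hR4⟩
  · have key : ∀ (x : MulAut (SL3 F)) (A B : M3 F) (k : F), x ∈ H → GIs x false A → k ≠ 0 →
        B = k • A → ∃ x ∈ H, GIs x false B := by
      intro x A B k hx hA hk hB
      exact ⟨x, hx, by rw [hB]; exact hA.smul hk⟩
    have n1 : (-1 : F) ≠ 0 := neg_ne_zero.2 one_ne_zero
    rintro m y z (rfl | rfl) (rfl | rfl) (rfl | rfl)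
    · refine key 1 1 _ 1 H.one_mem gis_one one_ne_zero ?_
      ext i j
      fin_cases i <;> fin_cases j <;> simp
    · refine key _ _ _ (-1) hR3H hR3 n1 ?_
      ext i j
      fin_cases i <;> fin_cases j <;> simp [e11n, e11]
    · refine key _ _ _ (-1) hbRH hbR n1 ?_
      ext i j
      fin_cases i <;> fin_cases j <;> simp [e11'']
    · refine key _ _ _ 1 hbH hb one_ne_zero ?_
      ext i j
      fin_cases i <;> fin_cases j <;> simp [dg]
    · refine key _ _ _ (-1) hbH hb n1 ?_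
      ext i j
      fin_cases i <;> fin_cases j <;> simp [dg]
    · refine key _ _ _ 1 hbRH hbR one_ne_zero ?_
      ext i j
      fin_cases i <;> fin_cases j <;> simp [e11n, e11]
    · refine key _ _ _ 1 hR3H hR3 one_ne_zero ?_
      ext i j
      fin_cases i <;> fin_cases j <;> simp [e11'']
    · refine key 1 1 _ (-1) H.one_mem gis_one n1 ?_
      ext i j
      fin_cases i <;> fin_cases j <;> simp

end R3I

open R3I in
theorem r3i_thm : R3IStmt := by
  intro F _ _ h3 hcard a b c d ⟨ha, hb, hc, hd⟩ x hx1 hx2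
  have e2 : (2 : F) = -1 := by linear_combination h3
  have e11 : (1 : F) + 1 = -1 := by linear_combination h3
  have e11' : (-1 : F) + -1 = 1 := by linear_combination -h3
  have e11'' : (-1 : F) - 1 = 1 := by linear_combination -h3
  have n1 : (-1 : F) ≠ 0 := neg_ne_zero.2 one_ne_zero
  have hw := words h3 hb hc (Subgroup.closure ({b, c} : Set (MulAut (SL3 F))))
    (Subgroup.subset_closure (by simp)) (Subgroup.subset_closure (by simp))
  -- first flag
  have f1 : Fl (![0, 0, 1] : Fin 3 → F) ![1, 0, 0] x := by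
    refine Fl.of_closure ?_ hx1
    intro y hy
    simp only [Set.mem_insert_iff, Set.mem_singleton_iff] at hy
    rcases hy with rfl | rfl | rfl
    · refine Or.inr ⟨_, ha, ⟨1, one_ne_zero, ?_⟩, ⟨1, one_ne_zero, ?_⟩⟩
      · ext i
        fin_cases i <;> simp [Matrix.mulVec, dotProduct, Fin.sum_univ_three]
      · ext i
        fin_cases i <;> simp [Matrix.vecMul, dotProduct, Fin.sum_univ_three]
    · refine Or.inl ⟨_, hb, ⟨-1, n1, ?_⟩, ⟨1, one_ne_zero, ?_⟩⟩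
      · ext i
        fin_cases i <;> simp [dg, Matrix.mulVec, dotProduct, Fin.sum_univ_three]
      · ext i
        fin_cases i <;> simp [dg, Matrix.vecMul, dotProduct, Fin.sum_univ_three]
    · refine Or.inl ⟨_, hc, ⟨-1, n1, ?_⟩, ⟨-1, n1, ?_⟩⟩
      · ext i
        fin_cases i <;> simp [Matrix.mulVec, dotProduct, Fin.sum_univ_three]
      · ext i
        fin_cases i <;> simp [Matrix.vecMul, dotProduct, Fin.sum_univ_three]
  -- second flag
  have f2 : Fl (![0, 1, 1] : Fin 3 → F) ![0, 1, -1] x := by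
    refine Fl.of_closure ?_ hx2
    intro y hy
    simp only [Set.mem_insert_iff, Set.mem_singleton_iff] at hy
    rcases hy with rfl | rfl | rfl
    · refine Or.inl ⟨_, hb, ⟨-1, n1, ?_⟩, ⟨-1, n1, ?_⟩⟩
      · ext i
        fin_cases i <;> simp [dg, Matrix.mulVec, dotProduct, Fin.sum_univ_three]
      · ext i
        fin_cases i <;> simp [dg, Matrix.vecMul, dotProduct, Fin.sum_univ_three]
    · refine Or.inl ⟨_, hc, ⟨1, one_ne_zero, ?_⟩, ⟨-1, n1, ?_⟩⟩
      · ext i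
        fin_cases i <;> simp [Matrix.mulVec, dotProduct, Fin.sum_univ_three, e11']
      · ext i
        fin_cases i <;> simp [Matrix.vecMul, dotProduct, Fin.sum_univ_three, e11]
    · refine Or.inr ⟨_, hd, ⟨1, one_ne_zero, ?_⟩, ⟨1, one_ne_zero, ?_⟩⟩
      · ext i
        fin_cases i <;> simp [dg, Matrix.mulVec, dotProduct, Fin.sum_univ_three]
      · ext i
        fin_cases i <;> simp [dg, Matrix.vecMul, dotProduct, Fin.sum_univ_three]
  rcases f1 with ⟨M, hM, ⟨k1, hk1, g1⟩, ⟨k2, hk2, g2⟩⟩ | ⟨M, hM, ⟨k1, hk1, g1⟩, ⟨k2, hk2, g2⟩⟩ <;>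
    rcases f2 with ⟨N, hN, ⟨k3, hk3, g3⟩, ⟨k4, hk4, g4⟩⟩ | ⟨N, hN, ⟨k3, hk3, g3⟩, ⟨k4, hk4, g4⟩⟩
  · obtain ⟨-, κ, hκ, rfl⟩ := hM.uniq hN
    have hMd := hM.det_ne
    have a02 := congrFun g1 0
    have a12 := congrFun g1 1
    have b01 := congrFun g2 1
    have b02 := congrFun g2 2
    have c1 := congrFun g3 1
    have c2 := congrFun g3 2
    have d0 := congrFun g4 0
    have d1 := congrFun g4 1
    have d2 := congrFun g4 2
    simp [Matrix.mulVec, Matrix.vecMul, dotProduct, Fin.sum_univ_three] at a02 a12 b01 b02 c1 c2 d0 d1 d2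
    have e10 : M 2 0 = M 1 0 := by
      apply mul_left_cancel₀ hκ
      linear_combination -d0
    have e21 : M 2 1 = M 1 1 - M 2 2 := by
      apply mul_left_cancel₀ hκ
      linear_combination c2 - c1 + κ * a12
    have hdet : M.det = M 0 0 * M 1 1 * M 2 2 := by
      rw [Matrix.det_fin_three, a02, a12, b01]
      ring
    rw [hdet] at hMd
    have hm : M 0 0 ≠ 0 := fun h0 => hMd (by rw [h0]; ring)
    have hy : M 1 1 ≠ 0 := fun h0 => hMd (by rw [h0]; ring)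
    have hz : M 2 2 ≠ 0 := fun h0 => hMd (by rw [h0]; ring)
    have hm' := (tern hcard (M 0 0)).resolve_left hm
    have hy' := (tern hcard (M 1 1)).resolve_left hy
    have hz' := (tern hcard (M 2 2)).resolve_left hz
    have hmm : M 0 0 * M 0 0 = 1 := by
      rcases hm' with h | h <;> rw [h] <;> ring
    obtain ⟨u, hu, gu⟩ := hw.1 (M 1 0 * M 0 0) (tern hcard _)
    obtain ⟨v, hv, gv⟩ := hw.2 (M 0 0) (M 1 1) (M 2 2) hm' hy' hz'
    have guv := gu.mul_inner gv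
    have e : (!![1, 0, 0; M 1 0 * M 0 0, 1, 0; M 1 0 * M 0 0, 0, 1] : M3 F) *
        !![M 0 0, 0, 0; 0, M 1 1, 0; 0, M 1 1 - M 2 2, M 2 2] = M := by
      ext i j
      fin_cases i <;> fin_cases j <;>
        simp [Matrix.mul_apply, Fin.sum_univ_three, a02, a12, b01, e10, e21, mul_assoc, hmm]
    rw [e] at guv
    have hx : x = u * v := hM.ext guv 1 (by rw [one_smul])
    rw [hx]
    exact mul_mem hu hv
  · exact absurd (hM.uniq hN).1 (by simp)
  · exact absurd (hM.uniq hN).1 (by simp)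
  · obtain ⟨-, κ, hκ, rfl⟩ := hM.uniq hN
    have hMd := hM.det_ne
    exfalso
    have a12 := congrFun g1 1
    have a22 := congrFun g1 2
    have b21 := congrFun g2 1
    have c1 := congrFun g3 1
    have c2 := congrFun g3 2
    simp [Matrix.mulVec, Matrix.vecMul, dotProduct, Fin.sum_univ_three] at a12 a22 b21 c1 c2
    apply hk3
    rw [a22, b21] at c2
    rw [mul_zero, add_zero] at c2
    exact neg_eq_zero.1 c2.symm

end Pool.SCG
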